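import Pool.Agent.Run7.h408.EF.Stm

/-!
# Project EF, piece StKf: the derivatives of the two forms
-/

set_option autoImplicit false

open Set Filter Topology MeasureTheory
open scoped Real ContDiff
open Pool.Agent.Y262.QE Pool.Agent.Y264.QR Pool.Agent.Run7.h408.EF

noncomputable section

namespace Pool.Agent.Run7.h722.EF

section

variable {M : Type} [TopologicalSpace M] [MeasurableSpace M]

/-- the first component -/
def p1 (D : Data M) (μ : Measure M) : HF D μ →L[ℝ] Lp ℝ 2 μ :=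
  (WithLp.fstL 2 ℝ (Lp ℝ 2 μ) (Lp ℂ 2 μ)).comp (HF D μ).subtypeL

/-- the second component -/
def p2 (D : Data M) (μ : Measure M) : HF D μ →L[ℝ] Lp ℂ 2 μ :=
  (WithLp.sndL 2 ℝ (Lp ℝ 2 μ) (Lp ℂ 2 μ)).comp (HF D μ).subtypeL

lemma p1_apply (D : Data M) (μ : Measure M) (v : HF D μ) : p1 D μ v = v.1.fst := rfl

lemma p2_apply (D : Data M) (μ : Measure M) (v : HF D μ) : p2 D μ v = v.1.snd := rfl

end

/-- real part -/
def rP {M : Type} [MeasurableSpace M] (μ : Measure M) : Lp ℂ 2 μ →L[ℝ] Lp ℝ 2 μ :=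
  Complex.reCLM.compLpL 2 μ

/-- imaginary part -/
def iP {M : Type} [MeasurableSpace M] (μ : Measure M) : Lp ℂ 2 μ →L[ℝ] Lp ℝ 2 μ :=
  Complex.imCLM.compLpL 2 μ

lemma rP_coe {M : Type} [MeasurableSpace M] (μ : Measure M) (f : Lp ℂ 2 μ) :
    (rP μ f : M → ℝ) =ᵐ[μ] fun x => ((f : M → ℂ) x).re :=
  Complex.reCLM.coeFn_compLpL f

lemma iP_coe {M : Type} [MeasurableSpace M] (μ : Measure M) (f : Lp ℂ 2 μ) :
    (iP μ f : M → ℝ) =ᵐ[μ] fun x => ((f : M → ℂ) x).im :=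
  Complex.imCLM.coeFn_compLpL f

lemma mul_int {M : Type} [MeasurableSpace M] {μ : Measure M} {w : M → ℝ} (hw : Measurable w)
    {C : ℝ} (hC : ∀ x, |w x| ≤ C) (f g : Lp ℝ 2 μ) :
    Integrable (fun x => w x * (f x * g x)) μ := by
  have h1 : Integrable (fun x => (f : M → ℝ) x * (g : M → ℝ) x) μ :=
    (Lp.memLp f).integrable_mul (Lp.memLp g)
  exact h1.bdd_mul hw.aestronglyMeasurable (Eventually.of_forall fun x => by
    rw [Real.norm_eq_abs]; exact hC x)

/-- `P3b` -/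
theorem StKf (_hFin : StFin) (hMul : StMul) (hFld : StFld) : Pool.Agent.Run7.h408.EF.StKf := by
  intro M _ _ _ _ μ D A hS h K hT
  obtain ⟨hm, _, hb, htr, h1I, hq, _⟩ := hFld M μ D A hS h K hT
  set t : M → ℝ := fun x => trc D A h x with ht
  set f1 : M → ℝ := fun x => fld D A h 1 1 x with hf1
  set f2 : M → ℝ := fun x => fld D A h Complex.I Complex.I x with hf2
  set f3 : M → ℝ := fun x => fld D A h 1 Complex.I x with hf3
  have mt : Measurable t := (hm 1 1).add (hm Complex.I Complex.I)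
  have m1 : Measurable f1 := hm 1 1
  have m2 : Measurable f2 := hm Complex.I Complex.I
  have m3 : Measurable f3 := hm 1 Complex.I
  have b1 : ∀ x, |f1 x| ≤ K := fun x => by
    have := hb 1 x
    rwa [norm_one, one_pow, mul_one] at this
  have b2 : ∀ x, |f2 x| ≤ K := fun x => by
    have := hb Complex.I x
    rwa [Complex.norm_I, one_pow, mul_one] at this
  have b3 : ∀ x, |f3 x| ≤ 2 * K := fun x => h1I x
  have bt : ∀ x, |t x| ≤ 2 * K := fun x => htr x
  -- the weights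
  set w0 : M → ℝ := fun x => 1 / 2 * t x with hw0
  set w1 : M → ℝ := fun x => 1 / 2 * t x - f1 x with hw1
  set w2 : M → ℝ := fun x => 1 / 2 * t x - f2 x with hw2
  set w3 : M → ℝ := fun x => - f3 x with hw3
  have mw0 : Measurable w0 := mt.const_mul _
  have mw1 : Measurable w1 := (mt.const_mul _).sub m1
  have mw2 : Measurable w2 := (mt.const_mul _).sub m2
  have mw3 : Measurable w3 := m3.neg
  have bw0 : ∀ x, |w0 x| ≤ K := fun x => by
    have := bt x
    rw [abs_le] at this ⊢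
    constructor <;> simp only [hw0] <;> linarith [this.1, this.2]
  have bw1 : ∀ x, |w1 x| ≤ 2 * K := fun x => by
    have h1 := abs_le.1 (bt x)
    have h2 := abs_le.1 (b1 x)
    rw [abs_le]
    constructor <;> simp only [hw1] <;> linarith [h1.1, h1.2, h2.1, h2.2]
  have bw2 : ∀ x, |w2 x| ≤ 2 * K := fun x => by
    have h1 := abs_le.1 (bt x)
    have h2 := abs_le.1 (b2 x)
    rw [abs_le]
    constructor <;> simp only [hw2] <;> linarith [h1.1, h1.2, h2.1, h2.2]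
  have bw3 : ∀ x, |w3 x| ≤ 2 * K := fun x => by
    simp only [hw3]
    rw [abs_neg]
    exact b3 x
  obtain ⟨B0, hB0⟩ := hMul M μ w0 mw0 K bw0
  obtain ⟨B1, hB1⟩ := hMul M μ w1 mw1 (2 * K) bw1
  obtain ⟨B2, hB2⟩ := hMul M μ w2 mw2 (2 * K) bw2
  obtain ⟨B3, hB3⟩ := hMul M μ w3 mw3 (2 * K) bw3
  have sy : ∀ (B : Lp ℝ 2 μ →L[ℝ] Lp ℝ 2 μ →L[ℝ] ℝ) (w : M → ℝ),
      (∀ f g, B f g = ∫ x, w x * (f x * g x) ∂μ) → ∀ f g, B f g = B g f := by
    intro B w hB f g
    rw [hB, hB]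
    refine integral_congr_ae (Eventually.of_forall fun x => ?_)
    change w x * (f x * g x) = w x * (g x * f x)
    ring
  set q : HF (wth D A) μ →L[ℝ] Lp ℝ 2 μ := p1 (wth D A) μ with hqd
  set R : HF (wth D A) μ →L[ℝ] Lp ℝ 2 μ := (rP μ).comp (p2 (wth D A) μ) with hR
  set J : HF (wth D A) μ →L[ℝ] Lp ℝ 2 μ := (iP μ).comp (p2 (wth D A) μ) with hJ
  refine ⟨B1.bilinearComp R R + B2.bilinearComp J J + (B3.bilinearComp R J + B3.bilinearComp J R),
    B0.bilinearComp q q, ?_, ?_, ?_, ?_⟩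
  · intro u v
    change B1 (R u) (R v) + B2 (J u) (J v) + (B3 (R u) (J v) + B3 (J u) (R v)) =
      B1 (R v) (R u) + B2 (J v) (J u) + (B3 (R v) (J u) + B3 (J v) (R u))
    rw [sy B1 w1 hB1 (R u), sy B2 w2 hB2 (J u), sy B3 w3 hB3 (R u), sy B3 w3 hB3 (J u)]
    ring
  · intro u v
    exact sy B0 w0 hB0 (q u) (q v)
  · intro v
    change B0 (q v) (q v) = _
    rw [hB0]
    refine integral_congr_ae (Eventually.of_forall fun x => ?_)
    change w0 x * ((v.1.fst : M → ℝ) x * (v.1.fst : M → ℝ) x) = _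
    simp only [hw0, ht]
    ring
  · intro v
    change B1 (R v) (R v) + B2 (J v) (J v) + (B3 (R v) (J v) + B3 (J v) (R v)) = _
    have i12 : Integrable (fun x => w1 x * ((R v : M → ℝ) x * (R v : M → ℝ) x) +
        w2 x * ((J v : M → ℝ) x * (J v : M → ℝ) x)) μ :=
      (mul_int mw1 bw1 _ _).add (mul_int mw2 bw2 _ _)
    have i33 : Integrable (fun x => w3 x * ((R v : M → ℝ) x * (J v : M → ℝ) x) +
        w3 x * ((J v : M → ℝ) x * (R v : M → ℝ) x)) μ :=
      (mul_int mw3 bw3 _ _).add (mul_int mw3 bw3 _ _)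
    rw [hB1, hB2, hB3, hB3, ← integral_add (mul_int mw1 bw1 _ _) (mul_int mw2 bw2 _ _),
      ← integral_add (mul_int mw3 bw3 _ _) (mul_int mw3 bw3 _ _), ← integral_add i12 i33]
    refine integral_congr_ae ?_
    have hr : (R v : M → ℝ) =ᵐ[μ] fun x => ((v.1.snd : M → ℂ) x).re := rP_coe μ v.1.snd
    have hj : (J v : M → ℝ) =ᵐ[μ] fun x => ((v.1.snd : M → ℂ) x).im := iP_coe μ v.1.snd
    filter_upwards [hr, hj] with x h1 h2
    rw [h1, h2, hq ((v.1.snd : M → ℂ) x) x]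
    have h3 : ‖(v.1.snd : M → ℂ) x‖ ^ 2 =
        ((v.1.snd : M → ℂ) x).re ^ 2 + ((v.1.snd : M → ℂ) x).im ^ 2 := by
      rw [← Complex.normSq_eq_norm_sq, Complex.normSq_apply]
      ring
    rw [h3]
    simp only [hw1, hw2, hw3, ht, hf1, hf2, hf3]
    ring

end Pool.Agent.Run7.h722.EF
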