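import Pool.Agent.Run7.h408.EF.Stm

/-!
# Project EF, piece StLps
-/

set_option autoImplicit false

open Set Filter Topology MeasureTheory
open scoped Real ContDiff
open Pool.Agent.Y262.QE Pool.Agent.Y264.QR Pool.Agent.Run7.h408.EF

noncomputable section

namespace Pool.Agent.Run7.h722.EF

theorem pc_unique {M : Type} (D : Data M) {i k : Fin D.N} {x : M} (hi : x ∈ D.pc i)
    (hk : x ∈ D.pc k) : i = k := by
  rcases lt_trichotomy i k with h | h | h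
  · exact absurd (Set.mem_iUnion.2 ⟨⟨i, h⟩, hi.1⟩) hk.2
  · exact h
  · exact absurd (Set.mem_iUnion.2 ⟨⟨k, h⟩, hk.1⟩) hi.2

theorem gr_pc {M : Type} (D : Data M) (F : M → ℝ) {i : Fin D.N} {x : M} (hi : x ∈ D.pc i) :
    D.gr F x = D.gc i F x := by
  unfold Data.gr
  rw [Finset.sum_eq_single i]
  · rw [Set.indicator_of_mem hi]
  · intro k _ hk
    rw [Set.indicator_of_notMem]
    exact fun h => hk (pc_unique D h hi)
  · intro h
    exact absurd (Finset.mem_univ i) h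

theorem pc_T {M : Type} (D : Data M) {i : Fin D.N} {x : M} (hi : x ∈ D.pc i) :
    D.φ i x ∈ D.T i := Set.mem_image_of_mem _ hi.1

theorem StLps (hFin : StFin) (hGr : StGr) (hLin : StLinA) (hCmp : StCmp) :
    Pool.Agent.Run7.h408.EF.StLps := by
  intro M _ _ _ _ μ₀ μ₁ D A₀ A₁ hS₀ hS₁ L hL hA
  have hf₀ : IsFiniteMeasure μ₀ := (hFin M μ₀ (wth D A₀) hS₀).1
  have hf₁ : IsFiniteMeasure μ₁ := (hFin M μ₁ (wth D A₁) hS₁).1
  have hd₀ : ∀ i, ∀ z ∈ D.T i, (A₀ i z).det ≠ 0 := hS₀.det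
  have hd₁ : ∀ i, ∀ z ∈ D.T i, (A₁ i z).det ≠ 0 := hS₁.det
  have h10 : ∀ i, ∀ z ∈ D.T i, |(A₁ i z).det| ≤ L ^ 2 * |(A₀ i z).det| := fun i z hz =>
    (hLin (A₀ i z) (A₁ i z) L (hd₀ i z hz) (hd₁ i z hz) hL fun v => (hA i z hz v).1).1
  have h01 : ∀ i, ∀ z ∈ D.T i, |(A₀ i z).det| ≤ L ^ 2 * |(A₁ i z).det| ∧
      ∀ P : ℂ →L[ℝ] ℝ, ‖grd (A₁ i z) P‖ ≤ L * ‖grd (A₀ i z) P‖ := fun i z hz =>
    hLin (A₁ i z) (A₀ i z) L (hd₁ i z hz) (hd₀ i z hz) hL fun v => (hA i z hz v).2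
  refine ⟨fun F hF => ⟨?_, ?_⟩, ?_⟩
  · obtain ⟨_, hm₀, C₀, hC₀⟩ := (hGr M μ₀ (wth D A₀) hS₀).1 F hF
    obtain ⟨_, hm₁, _⟩ := (hGr M μ₁ (wth D A₁) hS₁).1 F hF
    have h := hCmp M μ₁ μ₀ D A₁ A₀ hS₁ hS₀ (fun x => ‖(wth D A₁).gr F x‖ ^ 2)
      (fun x => L ^ 4 * ‖(wth D A₀).gr F x‖ ^ 2) (hm₁.norm.pow_const 2)
      ((hm₀.norm.pow_const 2).const_mul _) ⟨L ^ 4 * C₀ ^ 2, fun x => ?_⟩ (fun x => by positivity)
      ?_
    · rwa [integral_const_mul] at h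
    · rw [abs_of_nonneg (by positivity)]
      exact mul_le_mul_of_nonneg_left (pow_le_pow_left₀ (norm_nonneg _) (hC₀ x) 2)
        (by positivity)
    · intro i x hx
      have hT : D.φ i x ∈ D.T i := pc_T D hx
      have e₁ : (wth D A₁).gr F x = grd (A₁ i (D.φ i x)) (D.dc i F x) := gr_pc (wth D A₁) F hx
      have e₀ : (wth D A₀).gr F x = grd (A₀ i (D.φ i x)) (D.dc i F x) := gr_pc (wth D A₀) F hx
      have h1 := h10 i _ hT
      have h2 := (h01 i _ hT).2 (D.dc i F x)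
      change |(A₁ i (D.φ i x)).det| * ‖(wth D A₁).gr F x‖ ^ 2 ≤
        |(A₀ i (D.φ i x)).det| * (L ^ 4 * ‖(wth D A₀).gr F x‖ ^ 2)
      rw [e₁, e₀]
      calc |(A₁ i (D.φ i x)).det| * ‖grd (A₁ i (D.φ i x)) (D.dc i F x)‖ ^ 2
          ≤ (L ^ 2 * |(A₀ i (D.φ i x)).det|) * (L * ‖grd (A₀ i (D.φ i x)) (D.dc i F x)‖) ^ 2 :=
            mul_le_mul h1 (pow_le_pow_left₀ (norm_nonneg _) h2 2) (by positivity) (by positivity)
        _ = |(A₀ i (D.φ i x)).det| * (L ^ 4 * ‖grd (A₀ i (D.φ i x)) (D.dc i F x)‖ ^ 2) := by ring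
  · have hc : Continuous F := ((hGr M μ₀ (wth D A₀) hS₀).1 F hF).1
    obtain ⟨C, hC⟩ : ∃ C : ℝ, ∀ x, |F x| ≤ C := by
      obtain ⟨C, hC⟩ := isCompact_univ.exists_bound_of_continuousOn (f := F) hc.continuousOn
      exact ⟨C, fun x => hC x (mem_univ x)⟩
    have h := hCmp M μ₀ μ₁ D A₀ A₁ hS₀ hS₁ (fun x => (F x) ^ 2)
      (fun x => L ^ 2 * (F x) ^ 2) (hc.measurable.pow_const 2)
      ((hc.measurable.pow_const 2).const_mul _) ⟨L ^ 2 * C ^ 2, fun x => ?_⟩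
      (fun x => by positivity) ?_
    · rwa [integral_const_mul] at h
    · rw [abs_of_nonneg (by positivity), ← sq_abs (F x)]
      exact mul_le_mul_of_nonneg_left (pow_le_pow_left₀ (abs_nonneg _) (hC x) 2)
        (by positivity)
    · intro i x hx
      have h1 := (h01 i _ (pc_T D hx)).1
      change |(A₀ i (D.φ i x)).det| * (F x) ^ 2 ≤ |(A₁ i (D.φ i x)).det| * (L ^ 2 * (F x) ^ 2)
      calc |(A₀ i (D.φ i x)).det| * (F x) ^ 2 ≤ (L ^ 2 * |(A₁ i (D.φ i x)).det|) * (F x) ^ 2 :=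
            mul_le_mul_of_nonneg_right h1 (by positivity)
        _ = _ := by ring
  · have h := hCmp M μ₁ μ₀ D A₁ A₀ hS₁ hS₀ (fun _ => 1) (fun _ => L ^ 2) measurable_const
      measurable_const ⟨L ^ 2, fun x => by rw [abs_of_nonneg (by positivity)]⟩
      (fun x => zero_le_one) ?_
    · rw [integral_const, integral_const, smul_eq_mul, smul_eq_mul, mul_one] at h
      linarith
    · intro i x hx
      have h1 := h10 i _ (pc_T D hx)
      change |(A₁ i (D.φ i x)).det| * 1 ≤ |(A₀ i (D.φ i x)).det| * L ^ 2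
      linarith

end Pool.Agent.Run7.h722.EF
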