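import Pool.Agent.Run7.h408.EF.Stm

/-!
# Project EF, piece StUB: an upper bound for the eigenvalues
-/

set_option autoImplicit false

open Set Filter Topology MeasureTheory
open scoped Real ContDiff
open Pool.Agent.Y262.QE Pool.Agent.Y264.QR Pool.Agent.Run7.h408.EF

noncomputable section

namespace Pool.Agent.Run7.h722.EF

/-! ### forms -/

section forms

variable {H : Type} [NormedAddCommGroup H] [InnerProductSpace ℝ H]

lemma ev_upper {a b : H →L[ℝ] H →L[ℝ] ℝ} {j : ℕ} (v : Fin (j + 1) → H) {δ lam : ℝ}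
    (hδ : 0 < δ) (hlam : 0 ≤ lam)
    (h1 : ∀ c : Fin (j + 1) → ℝ, δ * ∑ i, (c i) ^ 2 ≤ b (∑ i, c i • v i) (∑ i, c i • v i))
    (h2 : ∀ c : Fin (j + 1) → ℝ, a (∑ i, c i • v i) (∑ i, c i • v i) ≤
      lam * b (∑ i, c i • v i) (∑ i, c i • v i)) : Ev a b j ≤ lam := by
  refine csInf_le ⟨0, fun x hx => hx.1⟩ ⟨hlam, ?_⟩
  have hli : LinearIndependent ℝ v := by
    rw [Fintype.linearIndependent_iff]
    intro c hc k
    have h3 := h1 c
    rw [hc, map_zero] at h3
    have h4 : ∑ i, (c i) ^ 2 ≤ 0 := by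
      by_contra hn
      push Not at hn
      have : 0 < δ * ∑ i, (c i) ^ 2 := mul_pos hδ hn
      linarith
    have h5 : (c k) ^ 2 ≤ ∑ i, (c i) ^ 2 :=
      Finset.single_le_sum (f := fun i => (c i) ^ 2) (fun i _ => sq_nonneg _) (Finset.mem_univ k)
    nlinarith [sq_nonneg (c k)]
  refine ⟨Submodule.span ℝ (Set.range v), ?_, ?_⟩
  · rw [finrank_span_eq_card hli, Fintype.card_fin]
  · intro x hx
    obtain ⟨c, rfl⟩ := (Submodule.mem_span_range_iff_exists_fun ℝ).mp hx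
    exact h2 c

lemma form_sum (a : H →L[ℝ] H →L[ℝ] ℝ) {n : ℕ} (c : Fin n → ℝ) (g : Fin n → H) :
    a (∑ p, c p • g p) (∑ p, c p • g p) = ∑ p, ∑ q, c p * c q * a (g p) (g q) := by
  rw [map_sum, Finset.sum_comm]
  refine Finset.sum_congr rfl fun q _ => ?_
  have h1 : a (∑ p, c p • g p) = ∑ p, c p • a (g p) := by
    rw [map_sum]
    exact Finset.sum_congr rfl fun p _ => map_smul _ _ _
  rw [map_smul, h1, smul_eq_mul, sum_apply, Finset.mul_sum]
  refine Finset.sum_congr rfl fun p _ => ?_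
  rw [smul_apply, smul_eq_mul]
  ring

lemma form_near (a : H →L[ℝ] H →L[ℝ] ℝ) {n : ℕ} (f g : Fin n → H) {δ : ℝ} (hδ : 0 ≤ δ)
    (h : ∀ p q, |a (g p) (g q) - a (f p) (f q)| ≤ δ) (c : Fin n → ℝ) :
    |a (∑ p, c p • g p) (∑ p, c p • g p) - a (∑ p, c p • f p) (∑ p, c p • f p)| ≤
      δ * n * ∑ p, (c p) ^ 2 := by
  rw [form_sum, form_sum, ← Finset.sum_sub_distrib]
  have h1 : ∀ p, ∑ q, c p * c q * a (g p) (g q) - ∑ q, c p * c q * a (f p) (f q) =
      ∑ q, c p * c q * (a (g p) (g q) - a (f p) (f q)) := by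
    intro p
    rw [← Finset.sum_sub_distrib]
    exact Finset.sum_congr rfl fun q _ => by ring
  simp_rw [h1]
  calc |∑ p, ∑ q, c p * c q * (a (g p) (g q) - a (f p) (f q))|
      ≤ ∑ p, ∑ q, |c p| * |c q| * δ := by
        refine (Finset.abs_sum_le_sum_abs _ _).trans (Finset.sum_le_sum fun p _ => ?_)
        refine (Finset.abs_sum_le_sum_abs _ _).trans (Finset.sum_le_sum fun q _ => ?_)
        rw [abs_mul, abs_mul]
        exact mul_le_mul_of_nonneg_left (h p q) (by positivity)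
    _ = δ * (∑ p, |c p|) ^ 2 := by
        rw [pow_two, Finset.sum_mul_sum, Finset.mul_sum]
        refine Finset.sum_congr rfl fun p _ => ?_
        rw [Finset.mul_sum]
        exact Finset.sum_congr rfl fun q _ => by ring
    _ ≤ δ * (n * ∑ p, |c p| ^ 2) := by
        refine mul_le_mul_of_nonneg_left ?_ hδ
        have h2 := sq_sum_le_card_mul_sum_sq (s := (Finset.univ : Finset (Fin n)))
          (f := fun p => |c p|)
        rwa [Finset.card_univ, Fintype.card_fin] at h2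
    _ = δ * n * ∑ p, (c p) ^ 2 := by
        simp_rw [sq_abs]
        ring

end forms

/-! ### linearity of the gradient -/

lemma grd_sum (A : ℂ →L[ℝ] ℂ) {n : ℕ} (c : Fin n → ℝ) (P : Fin n → ℂ →L[ℝ] ℝ) :
    grd A (∑ k, c k • P k) = ∑ k, c k • grd A (P k) := by
  unfold grd
  apply Complex.ext
  · rw [Complex.re_sum]
    simp only [sum_apply, smul_apply, smul_eq_mul,
      Complex.real_smul, Complex.mul_re, Complex.ofReal_re, Complex.ofReal_im, zero_mul, sub_zero]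
  · rw [Complex.im_sum]
    simp only [sum_apply, smul_apply, smul_eq_mul,
      Complex.real_smul, Complex.mul_im, Complex.ofReal_re, Complex.ofReal_im, zero_mul, add_zero]

lemma c1_sum {M : Type} (D : Data M) {n : ℕ} (c : Fin n → ℝ) (F : Fin n → M → ℝ)
    (hF : ∀ k, D.C1 (F k)) : D.C1 (fun x => ∑ k, c k * F k x) := by
  intro i
  exact ContDiffOn.sum fun k _ => contDiffOn_const.mul (hF k i)

lemma gr_sum {M : Type} [TopologicalSpace M] [MeasurableSpace M] {μ : Measure M} (D : Data M)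
    (hD : D.IsSurf μ) {n : ℕ} (c : Fin n → ℝ) (F : Fin n → M → ℝ)
    (hF : ∀ k, D.C1 (F k)) (x : M) :
    D.gr (fun x => ∑ k, c k * F k x) x = ∑ k, c k • D.gr (F k) x := by
  unfold Data.gr
  simp_rw [Finset.smul_sum]
  rw [Finset.sum_comm]
  refine Finset.sum_congr rfl fun i _ => ?_
  by_cases hx : x ∈ D.pc i
  · rw [indicator_of_mem hx]
    simp_rw [indicator_of_mem hx]
    unfold Data.gc Data.dc
    rw [← grd_sum]
    congr 1
    have hT : D.φ i x ∈ D.T i := mem_image_of_mem _ hx.1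
    have hdiff : ∀ k, DifferentiableAt ℝ (fun z => F k (D.ψ i z)) (D.φ i x) := fun k =>
      ((hF k i).contDiffAt ((hD.openT i).mem_nhds hT)).differentiableAt (by norm_num)
    rw [fderiv_fun_sum fun k _ => (hdiff k).const_mul (c k)]
    refine Finset.sum_congr rfl fun k _ => ?_
    rw [fderiv_const_mul (hdiff k)]
  · rw [indicator_of_notMem hx]
    symm
    refine Finset.sum_eq_zero fun k _ => ?_
    rw [indicator_of_notMem hx, smul_zero]

/-! ### representatives -/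

/-- the representative of a linear combination -/
lemma coe_sum {M : Type} [MeasurableSpace M] {μ : Measure M} {E : Type} [NormedAddCommGroup E]
    [NormedSpace ℝ E] {N : ℕ} (c : Fin N → ℝ) (f : Fin N → Lp E 2 μ) (g : Fin N → M → E)
    (h : ∀ i, (f i : M → E) =ᵐ[μ] g i) (s : Finset (Fin N)) :
    ((∑ i ∈ s, c i • f i : Lp E 2 μ) : M → E) =ᵐ[μ] fun x => ∑ i ∈ s, c i • g i x := by
  classical
  induction s using Finset.induction_on with
  | empty =>
    simp only [Finset.sum_empty]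
    exact Lp.coeFn_zero E 2 μ
  | insert k s hk ih =>
    rw [Finset.sum_insert hk]
    filter_upwards [Lp.coeFn_add (c k • f k) (∑ i ∈ s, c i • f i), Lp.coeFn_smul (c k) (f k), h k,
      ih] with x h1 h2 h3 h4
    rw [h1, Pi.add_apply, h2, Pi.smul_apply, h3, h4, Finset.sum_insert hk]

lemma fst_sum {M : Type} [TopologicalSpace M] [MeasurableSpace M] {D : Data M} {μ : Measure M}
    {N : ℕ} (c : Fin N → ℝ) (v : Fin N → HF D μ) (F : Fin N → M → ℝ)
    (h : ∀ k, ((v k).1.fst : M → ℝ) =ᵐ[μ] F k) :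
    ((∑ k, c k • v k : HF D μ).1.fst : M → ℝ) =ᵐ[μ] fun x => ∑ k, c k * F k x := by
  have h1 : (∑ k, c k • v k : HF D μ).1.fst = ∑ k, c k • (v k).1.fst := by
    have e1 : (∑ k, c k • v k : HF D μ).1 = ∑ k, c k • (v k).1 := by
      rw [AddSubmonoidClass.coe_finsetSum]
      rfl
    rw [e1]
    change (WithLp.fstₗ (𝕜 := ℝ) 2 (Lp ℝ 2 μ) (Lp ℂ 2 μ)) (∑ k, c k • (v k).1) = _
    rw [map_sum]
    refine Finset.sum_congr rfl fun k _ => ?_
    rw [map_smul]
    rfl
  rw [h1]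
  exact coe_sum c (fun k => (v k).1.fst) F h Finset.univ

lemma snd_sum {M : Type} [TopologicalSpace M] [MeasurableSpace M] {D : Data M} {μ : Measure M}
    {N : ℕ} (c : Fin N → ℝ) (v : Fin N → HF D μ) (G : Fin N → M → ℂ)
    (h : ∀ k, ((v k).1.snd : M → ℂ) =ᵐ[μ] G k) :
    ((∑ k, c k • v k : HF D μ).1.snd : M → ℂ) =ᵐ[μ] fun x => ∑ k, c k • G k x := by
  have h1 : (∑ k, c k • v k : HF D μ).1.snd = ∑ k, c k • (v k).1.snd := by
    have e1 : (∑ k, c k • v k : HF D μ).1 = ∑ k, c k • (v k).1 := by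
      rw [AddSubmonoidClass.coe_finsetSum]
      rfl
    rw [e1]
    change (WithLp.sndₗ (𝕜 := ℝ) 2 (Lp ℝ 2 μ) (Lp ℂ 2 μ)) (∑ k, c k • (v k).1) = _
    rw [map_sum]
    refine Finset.sum_congr rfl fun k _ => ?_
    rw [map_smul]
    rfl
  rw [h1]
  exact coe_sum c (fun k => (v k).1.snd) G h Finset.univ

lemma conf_zero {M : Type} [TopologicalSpace M] (D : Data M) :
    (D.conf fun x => Real.exp ((0 : C(M, ℝ)) x)) = D := by
  unfold Data.conf
  simp only [ContinuousMap.zero_apply, Real.exp_zero, Real.sqrt_one, one_smul]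

lemma wm_zero {M : Type} [TopologicalSpace M] [MeasurableSpace M] (μ : Measure M) :
    (wm μ fun x => Real.exp ((0 : C(M, ℝ)) x)) = μ := by
  unfold wm
  simp only [ContinuousMap.zero_apply, Real.exp_zero, ENNReal.ofReal_one]
  exact withDensity_one

/-- `P5` -/
theorem StUB (hFin : StFin) (hFm : StFm) (hMM : StMM) (hDen : StDenF) (hPack : StPackF)
    (hBr : StBr) : Pool.Agent.Run7.h408.EF.StUB := by
  intro M _ _ _ _ μ₀ μ₁ D₀ D₁ hS₀ hS₁ hM hC1 u lam hE a b _ _ hab j f Λ η hΛ hη hf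
  have hfin₁ : IsFiniteMeasure μ₁ := (hFin M μ₁ D₁ hS₁).1
  obtain ⟨i, a₁, hSf, hi, ha₁⟩ := hPack M μ₁ D₁ hS₁ hM
  obtain ⟨B, hB, hFmB, -, -, -⟩ := hFm M μ₁ (HF D₁ μ₁) i a₁ hSf
  obtain ⟨e, _, heE⟩ := hBr M μ₁ D₁ hS₁ i a₁ B hSf hi ha₁ hB hFmB 0 u lam (by
    rw [conf_zero, wm_zero]; exact hE)
  have hev : Ev a₁ (B 0) j = lam j := hMM (HF D₁ μ₁) a₁ (B 0) (hFmB 0) e lam heE j
  rw [← hev]
  -- the forms on pairs
  have hbv : ∀ (v : HF D₁ μ₁) (F : M → ℝ), (v.1.fst : M → ℝ) =ᵐ[μ₁] F →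
      B 0 v v = ∫ x, (F x) ^ 2 ∂μ₁ := by
    intro v F hF
    rw [hB 0 v v, hi v]
    refine integral_congr_ae ?_
    filter_upwards [hF] with x hx
    rw [hx, pow_two, ContinuousMap.zero_apply, Real.exp_zero, one_mul]
  have hav : ∀ (v : HF D₁ μ₁) (G : M → ℂ), (v.1.snd : M → ℂ) =ᵐ[μ₁] G →
      a₁ v v = ∫ x, ‖G x‖ ^ 2 ∂μ₁ := by
    intro v G hG
    rw [ha₁ v v, L2.inner_def]
    refine integral_congr_ae ?_
    filter_upwards [hG] with x hx
    rw [hx, real_inner_self_eq_norm_sq]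
  -- approximation
  choose F g hFg hgl using fun p => (hDen M μ₀ D₀ hS₀).2 (f p).1 (f p).2
  let w : Fin (j + 1) → ℕ → HF D₀ μ₀ := fun p k => ⟨g p k, (hFg p k).2.1⟩
  have hw : ∀ p, Tendsto (w p) atTop (𝓝 (f p)) := by
    intro p
    rw [tendsto_subtype_rng]
    exact hgl p
  set δ : ℝ := η / (2 * ((j : ℝ) + 1) * (1 + Λ)) with hδ
  have h1Λ : 0 < 1 + Λ := by linarith
  have hj1 : (0 : ℝ) < (j : ℝ) + 1 := by positivity
  have hδ0 : 0 < δ := by positivity
  have hδ1 : δ * ((j : ℝ) + 1) * (1 + Λ) = η / 2 := by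
    rw [hδ]
    field_simp
  have hconv : ∀ (A : HF D₀ μ₀ →L[ℝ] HF D₀ μ₀ →L[ℝ] ℝ), ∀ᶠ k in atTop, ∀ p q,
      |A (w p k) (w q k) - A (f p) (f q)| ≤ δ := by
    intro A
    rw [eventually_all]
    intro p
    rw [eventually_all]
    intro q
    have h1 : Tendsto (fun k => A (w p k) (w q k)) atTop (𝓝 (A (f p) (f q))) := by
      have h2 : Continuous fun z : HF D₀ μ₀ × HF D₀ μ₀ => A z.1 z.2 := by fun_prop
      exact (h2.tendsto (f p, f q)).comp ((hw p).prodMk_nhds (hw q))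
    have h3 := (Metric.tendsto_nhds.1 h1) δ hδ0
    filter_upwards [h3] with k hk
    rw [Real.dist_eq] at hk
    exact hk.le
  obtain ⟨k, hka, hkb⟩ := ((hconv a).and (hconv b)).exists
  have hFC : ∀ p, D₀.C1 (F p k) := fun p => (hFg p k).1
  -- the vectors of the other form domain
  choose y hym hy1 hy2 using fun p => (hDen M μ₁ D₁ hS₁).1 (F p k) (hC1 _ (hFC p))
  let z : Fin (j + 1) → HF D₁ μ₁ := fun p => ⟨y p, hym p⟩
  have key : ∀ c : Fin (j + 1) → ℝ,
      a₁ (∑ p, c p • z p) (∑ p, c p • z p) ≤ a (∑ p, c p • w p k) (∑ p, c p • w p k) ∧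
      b (∑ p, c p • w p k) (∑ p, c p • w p k) ≤ B 0 (∑ p, c p • z p) (∑ p, c p • z p) := by
    intro c
    have h1 := hbv _ _ (fst_sum c z (fun p => F p k) hy1)
    have h2 := hav _ _ (snd_sum c z (fun p => D₁.gr (F p k)) hy2)
    have h3 := hab (fun x => ∑ p, c p * F p k x) (c1_sum D₀ c _ hFC) (∑ p, c p • w p k)
      (fst_sum c (fun p => w p k) (fun p => F p k) fun p => (hFg p k).2.2.1)
      ((snd_sum c (fun p => w p k) (fun p => D₀.gr (F p k)) fun p => (hFg p k).2.2.2).trans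
        (Eventually.of_forall fun x => (gr_sum D₀ hS₀ c (fun p => F p k) hFC x).symm))
    rw [h1, h2]
    refine ⟨?_, h3.2⟩
    refine le_trans (le_of_eq ?_) h3.1
    congr 1
    funext x
    rw [gr_sum D₁ hS₁ c (fun p => F p k) (fun p => hC1 _ (hFC p)) x]
  have est : ∀ c : Fin (j + 1) → ℝ,
      a (∑ p, c p • w p k) (∑ p, c p • w p k) ≤
        Λ * b (∑ p, c p • w p k) (∑ p, c p • w p k) ∧
      η / 2 * ∑ p, (c p) ^ 2 ≤ b (∑ p, c p • w p k) (∑ p, c p • w p k) := by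
    intro c
    have h1 := abs_le.1 (form_near a f (fun p => w p k) hδ0.le hka c)
    have h2 := abs_le.1 (form_near b f (fun p => w p k) hδ0.le hkb c)
    obtain ⟨h3, h4⟩ := hf c
    push_cast at h1 h2
    set S : ℝ := ∑ p, (c p) ^ 2 with hS
    have hS0 : 0 ≤ S := Finset.sum_nonneg fun p _ => sq_nonneg _
    set n : ℝ := (j : ℝ) + 1 with hn
    set ag := a (∑ p, c p • w p k) (∑ p, c p • w p k)
    set bg := b (∑ p, c p • w p k) (∑ p, c p • w p k)
    set af := a (∑ p, c p • f p) (∑ p, c p • f p)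
    set bf := b (∑ p, c p • f p) (∑ p, c p • f p)
    have h5 : Λ * bf ≤ Λ * (bg + δ * n * S) := mul_le_mul_of_nonneg_left (by linarith [h2.1]) hΛ
    have h6 : δ * n * S * (1 + Λ) = η / 2 * S := by
      rw [← hδ1]; ring
    have h7 : 0 ≤ δ * n * S := by positivity
    have h8 : δ * n * S ≤ η / 2 * S := by
      rw [← h6]
      nlinarith
    have h9 : 0 ≤ η * S := by positivity
    constructor
    · nlinarith [h1.2]
    · linarith [h2.1]
  refine ev_upper z (half_pos hη) hΛ (fun c => (est c).2.trans (key c).2) fun c => ?_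
  exact ((key c).1.trans (est c).1).trans (mul_le_mul_of_nonneg_left (key c).2 hΛ)

end Pool.Agent.Run7.h722.EF
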